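import Mathlib

/-! # Lattice points in dilated regions and residue classes (project KF, helper714) -/

set_option autoImplicit false

namespace Pool.Agent.Y721.KF

open Filter Topology MeasureTheory

variable {ι : Type} [Fintype ι]

/-- the lattice points in a box with prescribed residues -/
def Bx (q : ℕ) (T : Set (ι → ZMod q)) (u : ι → ℝ) : Set (ι → ℤ) :=
  {z | (fun i => (z i : ZMod q)) ∈ T ∧ ∀ i, (z i : ℝ) ≤ u i ∧ u i < z i + q}

theorem Bx_bijOn {q : ℕ} (hq : 0 < q) (T : Set (ι → ZMod q)) (u : ι → ℝ) :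
    Set.BijOn (fun (z : ι → ℤ) i => (z i : ZMod q)) (Bx q T u) T := by
  refine ⟨fun z hz => hz.1, ?_, ?_⟩
  · rintro z ⟨-, hz⟩ w ⟨-, hw⟩ h
    funext i
    have h1 : ((z i : ZMod q)) = (w i : ZMod q) := congrFun h i
    rw [ZMod.intCast_eq_intCast_iff] at h1
    have h2 : (q : ℤ) ∣ z i - w i := h1.symm.dvd
    obtain ⟨a, b⟩ := hz i
    obtain ⟨c, d⟩ := hw i
    have e1 : (z i : ℝ) < w i + q := lt_of_le_of_lt a d
    have e2 : (w i : ℝ) < z i + q := lt_of_le_of_lt c b
    have e1' : z i < w i + q := by exact_mod_cast e1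
    have e2' : w i < z i + q := by exact_mod_cast e2
    have h3 : z i - w i = 0 := by
      apply Int.eq_zero_of_abs_lt_dvd h2
      rw [abs_lt]
      constructor <;> omega
    omega
  · intro t ht
    haveI : NeZero q := ⟨hq.ne'⟩
    have hex : ∀ i, ∃ z : ℤ, (z : ZMod q) = t i ∧ (z : ℝ) ≤ u i ∧ u i < z + q := by
      intro i
      refine ⟨⌊u i⌋ - (⌊u i⌋ - (t i).val) % q, ?_, ?_, ?_⟩
      · have h1 : (((⌊u i⌋ - (t i).val) % q : ℤ) : ZMod q) = ((⌊u i⌋ - (t i).val : ℤ) : ZMod q) := by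
          rw [ZMod.intCast_mod]
        push_cast [h1]
        rw [ZMod.natCast_zmod_val]
        ring
      · have h1 : 0 ≤ (⌊u i⌋ - ((t i).val : ℤ)) % q := Int.emod_nonneg _ (by exact_mod_cast hq.ne')
        have h2 : ((⌊u i⌋ - (⌊u i⌋ - (t i).val) % q : ℤ) : ℝ) ≤ (⌊u i⌋ : ℝ) := by
          exact_mod_cast (by omega : ⌊u i⌋ - (⌊u i⌋ - ((t i).val : ℤ)) % q ≤ ⌊u i⌋)
        exact h2.trans (Int.floor_le _)
      · have h1 : (⌊u i⌋ - ((t i).val : ℤ)) % q < q := Int.emod_lt_of_pos _ (by exact_mod_cast hq)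
        have h2 : ((⌊u i⌋ : ℝ) + 1) ≤ ((⌊u i⌋ - (⌊u i⌋ - (t i).val) % q : ℤ) : ℝ) + q := by
          exact_mod_cast (by omega : ⌊u i⌋ + 1 ≤ ⌊u i⌋ - (⌊u i⌋ - ((t i).val : ℤ)) % q + q)
        exact lt_of_lt_of_le (Int.lt_floor_add_one _) h2
    choose z hz using hex
    refine ⟨z, ⟨?_, fun i => (hz i).2⟩, funext fun i => (hz i).1⟩
    have : (fun i => (z i : ZMod q)) = t := funext fun i => (hz i).1
    rw [this]
    exact ht

theorem Bx_ncard {q : ℕ} (hq : 0 < q) (T : Set (ι → ZMod q)) (u : ι → ℝ) :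
    (Bx q T u).ncard = T.ncard := (Bx_bijOn hq T u).ncard_eq

theorem Bx_finite {q : ℕ} (hq : 0 < q) (T : Set (ι → ZMod q)) (u : ι → ℝ) :
    (Bx q T u).Finite := by
  haveI : NeZero q := ⟨hq.ne'⟩
  exact (Bx_bijOn hq T u).finite_iff_finite.mpr (Set.toFinite T)

/-- the lattice points in question -/
def Zs (q : ℕ) (T : Set (ι → ZMod q)) (D : Set (ι → ℝ)) (Y : ℕ) : Set (ι → ℤ) :=
  {z | (fun i => (z i : ZMod q)) ∈ T ∧ (fun i => (z i : ℝ) / Y) ∈ D}

/-- the cubes -/
def Qz (q Y : ℕ) (z : ι → ℤ) : Set (ι → ℝ) :=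
  Set.pi Set.univ fun i => Set.Ico ((z i : ℝ) / Y) ((z i + q : ℝ) / Y)

theorem mem_Qz {q Y : ℕ} (hY : 0 < Y) {z : ι → ℤ} {x : ι → ℝ} :
    x ∈ Qz q Y z ↔ ∀ i, (z i : ℝ) ≤ Y * x i ∧ Y * x i < z i + q := by
  have hY' : (0 : ℝ) < Y := by exact_mod_cast hY
  unfold Qz
  rw [Set.mem_univ_pi]
  apply forall_congr'
  intro i
  rw [Set.mem_Ico, div_le_iff₀' hY', lt_div_iff₀' hY']

theorem vol_Qz {q Y : ℕ} (z : ι → ℤ) :
    volume.real (Qz q Y z) = ((q : ℝ) / Y) ^ Fintype.card ι := by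
  unfold Qz
  rw [Measure.real, Real.volume_pi_Ico, ENNReal.toReal_prod]
  have h : ∀ i, (ENNReal.ofReal (((z i : ℝ) + q) / Y - (z i : ℝ) / Y)).toReal = (q : ℝ) / Y := by
    intro i
    rw [← sub_div, add_sub_cancel_left, ENNReal.toReal_ofReal (by positivity)]
  rw [Finset.prod_congr rfl fun i _ => h i, Finset.prod_const, Finset.card_univ]

theorem meas_Qz (q Y : ℕ) (z : ι → ℤ) : MeasurableSet (Qz q Y z) :=
  MeasurableSet.univ_pi fun _ => measurableSet_Ico

theorem Zs_finite {q : ℕ} {T : Set (ι → ZMod q)} {D : Set (ι → ℝ)} (hD : Bornology.IsBounded D)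
    {Y : ℕ} (hY : 0 < Y) : (Zs q T D Y).Finite := by
  classical
  obtain ⟨R, hR⟩ := hD.subset_closedBall 0
  have hY' : (0 : ℝ) < Y := by exact_mod_cast hY
  refine Set.Finite.subset (Set.finite_Icc (fun _ : ι => -⌈|R| * Y⌉) (fun _ => ⌈|R| * Y⌉)) ?_
  rintro z ⟨-, hz⟩
  have h1 := hR hz
  rw [mem_closedBall_zero_iff] at h1
  have h2 : ∀ i, |(z i : ℝ)| ≤ |R| * Y := by
    intro i
    have h3 := (norm_le_pi_norm (fun i => (z i : ℝ) / Y) i).trans (h1.trans (le_abs_self R))
    rw [Real.norm_eq_abs, abs_div, abs_of_pos hY', div_le_iff₀ hY'] at h3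
    exact h3
  rw [Set.mem_Icc]
  constructor
  · intro i
    have h3 := (abs_le.mp (h2 i)).1
    have h4 : -(⌈|R| * Y⌉ : ℝ) ≤ z i := by
      have := Int.le_ceil (|R| * Y)
      linarith
    show -⌈|R| * Y⌉ ≤ z i
    exact_mod_cast h4
  · intro i
    have h3 := (abs_le.mp (h2 i)).2
    have h4 : (z i : ℝ) ≤ (⌈|R| * Y⌉ : ℝ) := h3.trans (Int.le_ceil _)
    show z i ≤ ⌈|R| * Y⌉
    exact_mod_cast h4

open Classical in
/-- the number of cubes containing a point -/
noncomputable def ff (q : ℕ) (T : Set (ι → ZMod q)) (D : Set (ι → ℝ)) (Y : ℕ) (x : ι → ℝ) : ℝ :=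
  if h : (Zs q T D Y).Finite then ∑ z ∈ h.toFinset, (Qz q Y z).indicator (fun _ => (1 : ℝ)) x else 0

theorem ff_eq {q : ℕ} {T : Set (ι → ZMod q)} {D : Set (ι → ℝ)} {Y : ℕ}
    (h : (Zs q T D Y).Finite) (x : ι → ℝ) :
    ff q T D Y x = ∑ z ∈ h.toFinset, (Qz q Y z).indicator (fun _ => (1 : ℝ)) x := by
  unfold ff
  rw [dif_pos h]

theorem ff_ncard {q : ℕ} {T : Set (ι → ZMod q)} {D : Set (ι → ℝ)} {Y : ℕ}
    (h : (Zs q T D Y).Finite) (x : ι → ℝ) :
    ff q T D Y x = ({z ∈ Zs q T D Y | x ∈ Qz q Y z}.ncard : ℝ) := by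
  classical
  rw [ff_eq h]
  have h1 : ∀ z ∈ h.toFinset, (Qz q Y z).indicator (fun _ => (1 : ℝ)) x =
      if x ∈ Qz q Y z then 1 else 0 := by
    intro z _
    rw [Set.indicator_apply]
  rw [Finset.sum_congr rfl h1, Finset.sum_boole, ← Set.ncard_coe_finset]
  congr 2
  ext z
  simp

theorem integral_ff {q : ℕ} {T : Set (ι → ZMod q)} {D : Set (ι → ℝ)} {Y : ℕ}
    (h : (Zs q T D Y).Finite) :
    ∫ x, ff q T D Y x = (Zs q T D Y).ncard * ((q : ℝ) / Y) ^ Fintype.card ι := by
  have h1 : ∀ x, ff q T D Y x = ∑ z ∈ h.toFinset, (Qz q Y z).indicator (fun _ => (1 : ℝ)) x :=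
    fun x => ff_eq h x
  rw [integral_congr_ae (Eventually.of_forall h1), integral_finsetSum]
  · have h2 : ∀ z ∈ h.toFinset, ∫ x, (Qz q Y z).indicator (fun _ => (1 : ℝ)) x =
        ((q : ℝ) / Y) ^ Fintype.card ι := by
      intro z _
      rw [integral_indicator (meas_Qz q Y z), setIntegral_const, vol_Qz, smul_eq_mul, mul_one]
    rw [Finset.sum_congr rfl h2, Finset.sum_const, nsmul_eq_mul, Set.ncard_eq_toFinset_card _ h]
  · intro z _
    rw [integrable_indicator_iff (meas_Qz q Y z)]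
    apply integrableOn_const
    · unfold Qz
      rw [Real.volume_pi_Ico]
      exact ENNReal.prod_ne_top fun i _ => ENNReal.ofReal_ne_top
    · simp

theorem meas_ff {q : ℕ} {T : Set (ι → ZMod q)} {D : Set (ι → ℝ)} {Y : ℕ}
    (h : (Zs q T D Y).Finite) : Measurable (ff q T D Y) := by
  have h1 : ff q T D Y = fun x => ∑ z ∈ h.toFinset, (Qz q Y z).indicator (fun _ => (1 : ℝ)) x :=
    funext fun x => ff_eq h x
  rw [h1]
  exact Finset.measurable_sum _ fun z _ => measurable_const.indicator (meas_Qz q Y z)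

/-- the points of the cubes are near -/
theorem near {q Y : ℕ} (hY : 0 < Y) {z : ι → ℤ} {x : ι → ℝ} (h : x ∈ Qz q Y z) (i : ι) :
    |x i - (z i : ℝ) / Y| ≤ (q : ℝ) / Y := by
  have hY' : (0 : ℝ) < Y := by exact_mod_cast hY
  obtain ⟨h1, h2⟩ := (mem_Qz hY).mp h i
  have e : x i - (z i : ℝ) / Y = (Y * x i - z i) / Y := by
    field_simp
  rw [e, abs_div, abs_of_pos hY']
  apply div_le_div_of_nonneg_right _ hY'.le
  rw [abs_le]
  constructor
  · have : (0 : ℝ) ≤ q := Nat.cast_nonneg q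
    linarith
  · linarith

theorem ff_le {q : ℕ} (hq : 0 < q) {T : Set (ι → ZMod q)} {D : Set (ι → ℝ)} {Y : ℕ} (hY : 0 < Y)
    (h : (Zs q T D Y).Finite) (x : ι → ℝ) : ff q T D Y x ≤ T.ncard := by
  rw [ff_ncard h, ← Bx_ncard hq T (fun i => Y * x i)]
  have : {z ∈ Zs q T D Y | x ∈ Qz q Y z} ⊆ Bx q T (fun i => Y * x i) := by
    rintro z ⟨hz, hx⟩
    exact ⟨hz.1, (mem_Qz hY).mp hx⟩
  exact_mod_cast Set.ncard_le_ncard this (Bx_finite hq T _)

theorem lim_ff {q : ℕ} (hq : 0 < q) {T : Set (ι → ZMod q)} {D : Set (ι → ℝ)}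
    (hD : Bornology.IsBounded D) {x : ι → ℝ} (hx : x ∉ frontier D) :
    ∀ᶠ Y : ℕ in atTop, ff q T D Y x = T.ncard * D.indicator (fun _ => (1 : ℝ)) x := by
  have hlim : Tendsto (fun Y : ℕ => (q : ℝ) / Y) atTop (𝓝 0) :=
    tendsto_const_nhds.div_atTop tendsto_natCast_atTop_atTop
  rcases em (x ∈ closure D) with hc | hc
  · have hi : x ∈ interior D := by
      by_contra hcon
      exact hx ⟨hc, hcon⟩
    obtain ⟨δ, hδ, hball⟩ := Metric.isOpen_iff.mp isOpen_interior x hi
    filter_upwards [hlim.eventually (gt_mem_nhds hδ), eventually_gt_atTop 0] with Y h1 hY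
    rw [ff_ncard (Zs_finite hD hY), Set.indicator_of_mem (interior_subset hi), mul_one,
      ← Bx_ncard hq T (fun i => Y * x i)]
    congr 2
    ext z
    constructor
    · rintro ⟨hz, hxz⟩
      exact ⟨hz.1, (mem_Qz hY).mp hxz⟩
    · rintro ⟨hz, hxz⟩
      have hxz' : x ∈ Qz q Y z := (mem_Qz hY).mpr hxz
      refine ⟨⟨hz, ?_⟩, hxz'⟩
      apply interior_subset
      apply hball
      rw [Metric.mem_ball, dist_comm, dist_pi_lt_iff hδ]
      intro i
      rw [Real.dist_eq]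
      exact lt_of_le_of_lt (near hY hxz' i) h1
  · have hi : x ∈ (closure D)ᶜ := hc
    obtain ⟨δ, hδ, hball⟩ := Metric.isOpen_iff.mp isClosed_closure.isOpen_compl x hi
    filter_upwards [hlim.eventually (gt_mem_nhds hδ), eventually_gt_atTop 0] with Y h1 hY
    rw [ff_ncard (Zs_finite hD hY), Set.indicator_of_notMem (fun h => hc (subset_closure h)),
      mul_zero]
    have : {z ∈ Zs q T D Y | x ∈ Qz q Y z} = ∅ := by
      rw [Set.eq_empty_iff_forall_notMem]
      rintro z ⟨hz, hxz⟩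
      have h2 : (fun i => (z i : ℝ) / Y) ∈ (closure D)ᶜ := by
        apply hball
        rw [Metric.mem_ball, dist_comm, dist_pi_lt_iff hδ]
        intro i
        rw [Real.dist_eq]
        exact lt_of_le_of_lt (near hY hxz i) h1
      exact h2 (subset_closure hz.2)
    rw [this, Set.ncard_empty, Nat.cast_zero]

/-- **lattice points in dilated regions and residue classes** -/
theorem lpc' (D : Set (ι → ℝ)) (hD : Bornology.IsBounded D) (hm : MeasurableSet D)
    (hf : volume (frontier D) = 0) (q : ℕ) (hq : 0 < q) (T : Set (ι → ZMod q)) :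
    Tendsto (fun Y : ℕ => ((Zs q T D Y).ncard : ℝ) / (Y : ℝ) ^ Fintype.card ι) atTop
      (𝓝 (volume.real D * T.ncard / (q : ℝ) ^ Fintype.card ι)) := by
  obtain ⟨R, hR⟩ := hD.subset_closedBall 0
  have key : Tendsto (fun Y : ℕ => ∫ x, ff q T D Y x) atTop
      (𝓝 (∫ x, T.ncard * D.indicator (fun _ => (1 : ℝ)) x)) := by
    apply tendsto_integral_filter_of_dominated_convergence
      (fun x => T.ncard * (Metric.closedBall (0 : ι → ℝ) (R + q)).indicator (fun _ => (1 : ℝ)) x)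
    · filter_upwards [eventually_gt_atTop 0] with Y hY
      exact (meas_ff (Zs_finite hD hY)).aestronglyMeasurable
    · filter_upwards [eventually_gt_atTop 0] with Y hY
      refine Eventually.of_forall fun x => ?_
      have hfin : (Zs q T D Y).Finite := Zs_finite hD hY
      have h0 : 0 ≤ ff q T D Y x := by rw [ff_ncard hfin]; positivity
      rw [Real.norm_of_nonneg h0]
      by_cases hx : x ∈ Metric.closedBall (0 : ι → ℝ) (R + q)
      · rw [Set.indicator_of_mem hx, mul_one]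
        exact ff_le hq hY hfin x
      · rw [Set.indicator_of_notMem hx, mul_zero, ff_ncard hfin]
        have : {z ∈ Zs q T D Y | x ∈ Qz q Y z} = ∅ := by
          rw [Set.eq_empty_iff_forall_notMem]
          rintro z ⟨hz, hxz⟩
          apply hx
          have h1 := hR hz.2
          rw [mem_closedBall_zero_iff] at h1 ⊢
          have hY1 : (1 : ℝ) ≤ Y := by exact_mod_cast hY
          have h2 : ‖x - (fun i => (z i : ℝ) / Y)‖ ≤ q := by
            rw [pi_norm_le_iff_of_nonneg (Nat.cast_nonneg q)]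
            intro i
            rw [Pi.sub_apply, Real.norm_eq_abs]
            refine (near hY hxz i).trans ?_
            exact div_le_self (Nat.cast_nonneg q) hY1
          have h3 : x = (x - (fun i => (z i : ℝ) / Y)) + (fun i => (z i : ℝ) / Y) := by abel
          rw [h3]
          refine (norm_add_le _ _).trans ?_
          linarith
        rw [this, Set.ncard_empty, Nat.cast_zero]
    · apply Integrable.const_mul
      rw [integrable_indicator_iff Metric.isClosed_closedBall.measurableSet]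
      apply integrableOn_const
      · exact measure_closedBall_lt_top.ne
      · simp
    · have hae : ∀ᵐ x : ι → ℝ, x ∉ frontier D := by
        rw [ae_iff]
        simpa using hf
      filter_upwards [hae] with x hx
      exact tendsto_const_nhds.congr' ((lim_ff hq hD hx).mono fun Y hY => hY.symm)
  have hlim : ∫ x, T.ncard * D.indicator (fun _ => (1 : ℝ)) x = volume.real D * T.ncard := by
    rw [integral_const_mul, integral_indicator hm, setIntegral_const, smul_eq_mul, mul_one,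
      mul_comm]
  rw [hlim] at key
  have hq' : (0 : ℝ) < q := by exact_mod_cast hq
  refine (key.div_const ((q : ℝ) ^ Fintype.card ι)).congr' ?_
  filter_upwards [eventually_gt_atTop 0] with Y hY
  have hY' : (0 : ℝ) < Y := by exact_mod_cast hY
  rw [integral_ff (Zs_finite hD hY), div_pow]
  field_simp

/-- **lattice points in dilated regions and residue classes**, the statement `S_LPC` -/
theorem lpc : ∀ (ι : Type) [Fintype ι] (D : Set (ι → ℝ)), Bornology.IsBounded D →
    MeasurableSet D → volume (frontier D) = 0 → ∀ q : ℕ, 0 < q → ∀ T : Set (ι → ZMod q),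
      Tendsto (fun Y : ℕ => ({z : ι → ℤ | (fun i => (z i : ZMod q)) ∈ T ∧
        (fun i => (z i : ℝ) / Y) ∈ D}.ncard : ℝ) / (Y : ℝ) ^ Fintype.card ι) atTop
        (𝓝 (volume.real D * T.ncard / (q : ℝ) ^ Fintype.card ι)) :=
  fun ι _ D hD hm hf q hq T => lpc' D hD hm hf q hq T

end Pool.Agent.Y721.KF
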